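import Pool.Agent.W965.TFP.Cor

/-!
# `t`-flow-pairs of cubic graphs with few odd circuits in a 2-factor (MP_53b341_co)

Let `p, q` be positive integers.  Let `G` be a cubic graph with a 2-factor `F`, let `U` consist of
one vertex of every odd circuit of `F`, paired up by an involution `τ`, and let `sep X` be the number
of pairs separated by `X`.  If `2 y + sep X < |δ(X)|` for all `X` and all `y` with
`|δ(X) ∩ F| ≤ y < (q / p) sep X`, then `F` is the support of `φ₂` for a `p/q`-flow-pair `(φ₂, φ)`.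

Consequences: if `p ≤ q ≤ 2 p`, the 2-factor has at most `2 s` odd circuits and every edge cut
separating two of them has more than `2 ⌊(q s - 1) / p⌋ + s` edges, then there is such a pair; for
`(p, q) = (s, s + 1)` this covers all cyclically `(3 s + 1)`-edge-connected cubic graphs having a
2-factor with at most `2 s` odd circuits (ratio `s / (s + 1)`, which is between `1/2` and `1` for
`s ≥ 2`).

The proof follows the proof for ratio `1/2` (helper884, in the starting files): an Eulerian
orientation of the complement of `F` together with a matching inside `F` and the pairs of `U`,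
followed by Hoffman's circulation theorem.
-/

universe u v

namespace Pool.Agent.Results.MP_53b341_co.CutTradeoff
open Pool.Agent.H160R2.HF Pool.Agent.H884R2.HFP Pool.Agent.W965.TFP

theorem result (V : Type u) (E : Type v) [Fintype V] [Fintype E] [DecidableEq V] [DecidableEq E]
    (G : OrGraph V E) (hc : G.Cubic) (F : Finset E) (hF : G.IsTwoFactor F) :
    (∀ (U : Finset V) (τ : V → V) (p q : ℕ), 0 < p → 0 < q → OddTransversal G F U →
      (∀ u ∈ U, τ u ∈ U ∧ τ (τ u) = u ∧ τ u ≠ u) →
      (∀ (X : Finset V) (y : ℕ), (G.cut X ∩ F).card ≤ y → p * y < q * sep U τ X →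
        2 * y + sep U τ X < (G.cut X).card) →
      ∃ φ₂ φ : E → ℤ, IsFlowPair G p q φ₂ φ ∧ ∀ e, φ₂ e ≠ 0 ↔ e ∈ F) ∧
    (∀ p q s m : ℕ, 0 < p → 0 < q → q ≤ 2 * p → G.oddCount F ≤ 2 * s →
      2 * ((q * s - 1) / p) + s < m → OddSeparating G F m →
      ∃ φ₂ φ : E → ℤ, IsFlowPair G p q φ₂ φ ∧ ∀ e, φ₂ e ≠ 0 ↔ e ∈ F) ∧
    (∀ s : ℕ, 0 < s → G.oddCount F ≤ 2 * s → CyclicallyEdgeConnected G (3 * s + 1) →
      ∃ φ₂ φ : E → ℤ, IsFlowPair G s (s + 1) φ₂ φ ∧ ∀ e, φ₂ e ≠ 0 ↔ e ∈ F) :=
  ⟨fun U τ p q _ _ hU hτ hq => exists_pair_of_transversal G hc F hF U hU τ hτ p q hq,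
    fun p q s m hp _ hpq ht hm hs => exists_pair_of_separating G hc F hF p q s m hp hpq ht hm hs,
    fun s hs ht hk => exists_pair_of_cyclic G hc F hF s hs ht hk⟩

end Pool.Agent.Results.MP_53b341_co.CutTradeoff
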