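import Pool.Agent.W965.TFP.FinalB
import Pool.Agent.W965.TFP.FinalC

/-!
# `2/3`-flow-pairs of cubic graphs with a 2-factor having at most four odd circuits (MP_53b341_co)

Let `G` be a cubic graph and `F` a 2-factor of `G` with at most four odd circuits.  Suppose that
every odd edge cut of `G` with a cycle on both sides has at least seven edges (there is no
condition on even cuts).  Then `F` is the support of `φ₂` for a `2/3`-flow-pair `(φ₂, φ)` of `G`:
a 2-flow and a 6-flow with `|φ e| ≥ 3` on all edges with `φ₂ e = 0`.  In particular this holds for
all cyclically 6-edge-connected cubic graphs of oddness at most four.  In the terms of Q1, all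
these graphs have a `t`-flow-pair for one and the same `t = 2/3 < 1`.

Proof.  Let `U` contain one vertex of every odd circuit and let `B` be a matching in `F` missing
exactly `U`.  Orientations of the complement `M` of `F` come from Eulerian orientations of
`M ∪ B` plus two extra edges pairing `U`; such an orientation has two sources and two sinks in `U`.
A cut violating Hoffman's condition separates the sources from the sinks.  There are two
orientations with different partitions of `U` into sources and sinks.  If both have violating cuts
`δ(X)`, `δ(Y)`, then the four corners of `X, Y` have one vertex of `U` each and odd boundaries, so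
by submodularity one corner in each pair of opposite corners has at most three vertices; but then
one of `X`, `Y` or their complements has at most six vertices, although it contains an odd circuit
of `F` and another vertex of `U`.
-/

universe u v

namespace Pool.Agent.Results.MP_53b341_co.OddnessFour
open Pool.Agent.H160R2.HF Pool.Agent.W965.TFP Pool.Agent.W965.TFP.Odd

theorem result (V : Type u) (E : Type v) [Fintype V] [Fintype E] [DecidableEq V] [DecidableEq E]
    (G : OrGraph V E) (hc : G.Cubic) (F : Finset E) (hF : G.IsTwoFactor F)
    (ht : G.oddCount F ≤ 4) :
    (OddCyclicSeven G →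
      ∃ φ₂ φ : E → ℤ, IsFlowPair G 2 3 φ₂ φ ∧ ∀ e, φ₂ e ≠ 0 ↔ e ∈ F) ∧
    (CyclicallyEdgeConnected G 6 →
      ∃ φ₂ φ : E → ℤ, IsFlowPair G 2 3 φ₂ φ ∧ ∀ e, φ₂ e ≠ 0 ↔ e ∈ F) :=
  ⟨fun h7 => OddC.exists_pair_oddness_four G hc F hF h7 ht,
    fun h6 => OddC.exists_pair_oddness_four G hc F hF (conditions_of_cyclic G F hF h6).1 ht⟩

end Pool.Agent.Results.MP_53b341_co.OddnessFour
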